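import Pool.Agent.R795.Thue.Assemble
import Pool.Agent.R795.Thue.Words

/-!
# Trees of path-width at most two are nonrepetitively 180-choosable

A path `P` of the tree meets every nonempty bag, so the bags of the rest have size at most `2`; in
each component `K` of the rest a path `S_K` meets all bags of `K`, and the remaining vertices are
pairwise non-adjacent. The word of `P` is chosen without a block of `a` letters repeated at distance
less than `4 a`, the word of `S_K` likewise and such that none of its `m`-letter segments agrees,
forwards or backwards, with an `m`-letter segment of the word of `P` within distance `8 m` of the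
vertex at which `K` is attached (both by Rosenfeld's counting argument), and the remaining vertices
are colored greedily.
-/

set_option autoImplicit false

namespace Pool.Agent.Results.MP_924390_co.TreesPathWidthTwo

/-- `G` has a path-decomposition of width at most `2` -/
def PathWidthLeTwo {V : Type} (G : SimpleGraph V) : Prop :=
  ∃ B : ℕ → Finset V,
    (∀ i, (B i).card ≤ 3) ∧
    (∀ v : V, ∃ i, v ∈ B i) ∧
    (∀ u v : V, G.Adj u v → ∃ i, u ∈ B i ∧ v ∈ B i) ∧
    (∀ (v : V) (i j k : ℕ), i ≤ j → j ≤ k → v ∈ B i → v ∈ B k → v ∈ B j)

/-- no path on `2 k` vertices, `k ≥ 1`, has equal color sequences on its two halves -/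
def Nonrepetitive {V : Type} (G : SimpleGraph V) (f : V → ℕ) : Prop :=
  ∀ (u w : V) (p : G.Walk u w), p.IsPath → ∀ k : ℕ, 1 ≤ k → p.length + 1 = 2 * k →
    ¬ (∀ i : ℕ, i < k → f (p.getVert i) = f (p.getVert (i + k)))

/-- from any lists of at least `c` colors `G` has a nonrepetitive coloring -/
def NonrepetitivelyChoosable {V : Type} (G : SimpleGraph V) (c : ℕ) : Prop :=
  ∀ L : V → Finset ℕ, (∀ v, c ≤ (L v).card) → ∃ f : V → ℕ, (∀ v, f v ∈ L v) ∧ Nonrepetitive G f

/-- Every finite tree of path-width at most `2` is nonrepetitively `180`-choosable. -/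
theorem result (V : Type) [Fintype V] (T : SimpleGraph V) (hT : T.IsTree)
    (hw : PathWidthLeTwo T) : NonrepetitivelyChoosable T 180 := by
  intro L hL
  obtain ⟨f, hf, h⟩ := Pool.Agent.R795.Thue.main Pool.Agent.R795.Thue.words V T hT hw L hL
  exact ⟨f, hf, h⟩

end Pool.Agent.Results.MP_924390_co.TreesPathWidthTwo
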